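import Mathlib

set_option autoImplicit false

/-!
# MP_041051_al, Q1: a brachymorphism of unital non-associative rings that is not additive

`R` is the free unital non-associative algebra over `F_2` on two generators and `S` is the ring of
dual numbers over `F_2` (commutative, associative, with four elements).
-/

namespace Pool.Agent.Results.MP_041051_al.NotAdditive

/-- binary trees with leaves in `Bool`: the non-associative monomials in two letters -/
inductive T : Type
  | of : Bool → T
  | mul : T → T → T
deriving DecidableEq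

/-- degree of a monomial -/
def T.len : T → ℕ
  | T.of _ => 1
  | T.mul a b => a.len + b.len

theorem T.len_pos (t : T) : 0 < t.len := by
  induction t with
  | of _ => exact Nat.one_pos
  | mul a b ha hb => exact Nat.add_pos_left ha _

/-- product of non-associative polynomials without constant term -/
noncomputable def mulI (x y : T →₀ ZMod 2) : T →₀ ZMod 2 :=
  Finsupp.onFinset ((x.support ×ˢ y.support).image (fun p => T.mul p.1 p.2))
    (fun t => match t with
      | T.of _ => 0
      | T.mul a b => x a * y b) (by
    intro t ht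
    cases t with
    | of _ => exact absurd rfl ht
    | mul a b =>
      simp only [ne_eq, mul_eq_zero, not_or] at ht
      rw [Finset.mem_image]
      exact ⟨(a, b), Finset.mem_product.2 ⟨Finsupp.mem_support_iff.2 ht.1,
        Finsupp.mem_support_iff.2 ht.2⟩, rfl⟩)

theorem mulI_mul (x y : T →₀ ZMod 2) (a b : T) : mulI x y (T.mul a b) = x a * y b := rfl
theorem mulI_of (x y : T →₀ ZMod 2) (s : Bool) : mulI x y (T.of s) = 0 := rfl

/-- degree -/
noncomputable def deg (x : T →₀ ZMod 2) : ℕ := x.support.sup T.len

theorem le_deg {x : T →₀ ZMod 2} {t : T} (h : x t ≠ 0) : t.len ≤ deg x :=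
  Finset.le_sup (f := T.len) (Finsupp.mem_support_iff.2 h)

theorem zero_of_deg {x : T →₀ ZMod 2} {t : T} (h : deg x < t.len) : x t = 0 := by
  by_contra h'
  exact absurd (le_deg h') (not_le.2 h)

theorem exists_top {x : T →₀ ZMod 2} (h : x ≠ 0) : ∃ t, x t = 1 ∧ t.len = deg x := by
  have hne : x.support.Nonempty := Finsupp.support_nonempty_iff.2 h
  obtain ⟨t, ht, h2⟩ := Finset.exists_mem_eq_sup x.support hne T.len
  refine ⟨t, ?_, h2.symm⟩
  have h3 := Finsupp.mem_support_iff.1 ht
  revert h3
  generalize x t = c
  revert c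
  decide

theorem deg_pos {x : T →₀ ZMod 2} (h : x ≠ 0) : 0 < deg x := by
  obtain ⟨t, -, ht⟩ := exists_top h
  rw [← ht]
  exact t.len_pos

/-- `z` is decomposed as `a y + b x + x y` -/
def Dec (z : T →₀ ZMod 2) (a b : ZMod 2) (x y : T →₀ ZMod 2) : Prop :=
  x ≠ 0 ∧ y ≠ 0 ∧ z = a • y + b • x + mulI x y

theorem Dec.coeff {z x y : T →₀ ZMod 2} {a b : ZMod 2} (h : Dec z a b x y) (m n : T) :
    z (T.mul m n) = a * y (T.mul m n) + b * x (T.mul m n) + x m * y n := by
  rw [h.2.2]
  simp only [Finsupp.add_apply, Finsupp.smul_apply, smul_eq_mul, mulI_mul]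

theorem Dec.deg_le {z x y : T →₀ ZMod 2} {a b : ZMod 2} (h : Dec z a b x y) :
    deg x + deg y ≤ deg z := by
  obtain ⟨m, hm, hm2⟩ := exists_top h.1
  obtain ⟨n, hn, hn2⟩ := exists_top h.2.1
  have hx := deg_pos h.1
  have hy := deg_pos h.2.1
  have h1 := h.coeff m n
  have h2 : (T.mul m n).len = deg x + deg y := by rw [T.len, hm2, hn2]
  rw [zero_of_deg (x := y) (by rw [h2]; omega), zero_of_deg (x := x) (by rw [h2]; omega), hm, hn]
    at h1
  have h3 : z (T.mul m n) ≠ 0 := by
    rw [h1]
    simp
  rw [← h2]
  exact le_deg h3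

open Classical in
/-- the defect function, defined by recursion on the degree -/
noncomputable def eps (z : T →₀ ZMod 2) : ZMod 2 :=
  if h : ∃ (a b : ZMod 2) (x y : T →₀ ZMod 2), Dec z a b x y then
    have h1 : deg h.choose_spec.choose_spec.choose < deg z := by
      have h2 := h.choose_spec.choose_spec.choose_spec.choose_spec
      have h3 := h2.deg_le
      have h4 := deg_pos h2.2.1
      omega
    have h1' : deg h.choose_spec.choose_spec.choose_spec.choose < deg z := by
      have h2 := h.choose_spec.choose_spec.choose_spec.choose_spec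
      have h3 := h2.deg_le
      have h4 := deg_pos h2.1
      omega
    h.choose * eps h.choose_spec.choose_spec.choose_spec.choose +
      h.choose_spec.choose * eps h.choose_spec.choose_spec.choose
  else if z = Finsupp.single (T.of true) 1 + Finsupp.single (T.of false) 1 then 1 else 0
termination_by deg z

theorem eps_rec (z : T →₀ ZMod 2) (h : ∃ (a b : ZMod 2) (x y : T →₀ ZMod 2), Dec z a b x y) :
    ∃ (a b : ZMod 2) (x y : T →₀ ZMod 2), Dec z a b x y ∧ eps z = a * eps y + b * eps x := by
  refine ⟨_, _, _, _, h.choose_spec.choose_spec.choose_spec.choose_spec, ?_⟩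
  rw [eps, dif_pos h]

theorem eps_base (z : T →₀ ZMod 2)
    (h : ¬ ∃ (a b : ZMod 2) (x y : T →₀ ZMod 2), Dec z a b x y) :
    eps z = if z = Finsupp.single (T.of true) 1 + Finsupp.single (T.of false) 1 then 1 else 0 := by
  rw [eps, dif_neg h]

theorem smul_cases (a : ZMod 2) : a = 0 ∨ a = 1 := by
  revert a; decide

theorem char2 (x : T →₀ ZMod 2) : x + x = 0 := by
  ext t
  rw [Finsupp.add_apply, Finsupp.zero_apply]
  generalize x t = c
  revert c
  decide

theorem deg_lt_of_dec {z x y : T →₀ ZMod 2} {a b : ZMod 2} (h : Dec z a b x y) :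
    deg x < deg z ∧ deg y < deg z := by
  have h1 := h.deg_le
  have h2 := deg_pos h.1
  have h3 := deg_pos h.2.1
  omega

theorem mulI_add_left (x x' y : T →₀ ZMod 2) : mulI (x + x') y = mulI x y + mulI x' y := by
  ext t
  cases t with
  | of s => simp [mulI_of]
  | mul a b => simp [mulI_mul, add_mul]

theorem mulI_add_right (x y y' : T →₀ ZMod 2) : mulI x (y + y') = mulI x y + mulI x y' := by
  ext t
  cases t with
  | of s => simp [mulI_of]
  | mul a b => simp [mulI_mul, mul_add]

theorem mulI_smul_left (a : ZMod 2) (x y : T →₀ ZMod 2) : mulI (a • x) y = a • mulI x y := by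
  ext t
  cases t with
  | of s => simp [mulI_of]
  | mul c b => simp [mulI_mul, mul_assoc]

theorem mulI_smul_right (a : ZMod 2) (x y : T →₀ ZMod 2) : mulI x (a • y) = a • mulI x y := by
  ext t
  cases t with
  | of s => simp [mulI_of]
  | mul c b => simp only [mulI_mul, Finsupp.smul_apply, smul_eq_mul]; ring

/-- degrees of the factors of two decompositions agree -/
theorem deg_eq {u x y z w : T →₀ ZMod 2} {a b c d : ZMod 2} (h : Dec u a b x y)
    (h' : Dec u c d z w) : deg x = deg z ∧ deg y = deg w ∧
      ∀ m n : T, max (deg x) (deg y) < m.len + n.len → x m * y n = z m * w n := by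
  have px := deg_pos h.1
  have py := deg_pos h.2.1
  have pz := deg_pos h'.1
  have pw := deg_pos h'.2.1
  have key : ∀ m n : T, max (max (deg x) (deg y)) (max (deg z) (deg w)) < m.len + n.len →
      x m * y n = z m * w n := by
    intro m n hmn
    have h1 := h.coeff m n
    have h2 := h'.coeff m n
    have hl : (T.mul m n).len = m.len + n.len := rfl
    rw [zero_of_deg (x := y) (by rw [hl]; omega), zero_of_deg (x := x) (by rw [hl]; omega)] at h1
    rw [zero_of_deg (x := w) (by rw [hl]; omega), zero_of_deg (x := z) (by rw [hl]; omega)] at h2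
    rw [h1] at h2
    simpa using h2
  obtain ⟨m, hm, hm2⟩ := exists_top h.1
  obtain ⟨n, hn, hn2⟩ := exists_top h.2.1
  obtain ⟨m', hm', hm2'⟩ := exists_top h'.1
  obtain ⟨n', hn', hn2'⟩ := exists_top h'.2.1
  have A : max (max (deg x) (deg y)) (max (deg z) (deg w)) < deg x + deg y →
      deg x ≤ deg z ∧ deg y ≤ deg w := by
    intro hlt
    have h1 := key m n (by omega)
    rw [hm, hn, mul_one] at h1
    have h2 : z m ≠ 0 := fun h => by rw [h, zero_mul] at h1; exact one_ne_zero h1
    have h3 : w n ≠ 0 := fun h => by rw [h, mul_zero] at h1; exact one_ne_zero h1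
    have h4 := le_deg h2
    have h5 := le_deg h3
    omega
  have B : max (max (deg x) (deg y)) (max (deg z) (deg w)) < deg z + deg w →
      deg z ≤ deg x ∧ deg w ≤ deg y := by
    intro hlt
    have h1 := key m' n' (by omega)
    rw [hm', hn', mul_one] at h1
    have h2 : x m' ≠ 0 := fun h => by rw [h, zero_mul] at h1; exact zero_ne_one h1
    have h3 : y n' ≠ 0 := fun h => by rw [h, mul_zero] at h1; exact zero_ne_one h1
    have h4 := le_deg h2
    have h5 := le_deg h3
    omega
  have hxz : deg x = deg z ∧ deg y = deg w := by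
    by_cases h1 : max (max (deg x) (deg y)) (max (deg z) (deg w)) < deg x + deg y
    · obtain ⟨a1, a2⟩ := A h1
      by_cases h2 : max (max (deg x) (deg y)) (max (deg z) (deg w)) < deg z + deg w
      · obtain ⟨a3, a4⟩ := B h2
        omega
      · omega
    · have h2 : max (max (deg x) (deg y)) (max (deg z) (deg w)) < deg z + deg w := by omega
      obtain ⟨a3, a4⟩ := B h2
      omega
  refine ⟨hxz.1, hxz.2, fun m n hmn => key m n ?_⟩
  omega

theorem eq_or {u x y z w : T →₀ ZMod 2} {a b c d : ZMod 2} (h : Dec u a b x y)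
    (h' : Dec u c d z w) : y = w ∨ x = z := by
  obtain ⟨e1, e2, key⟩ := deg_eq h h'
  obtain ⟨m, hm, hm2⟩ := exists_top h.1
  obtain ⟨n, hn, hn2⟩ := exists_top h.2.1
  have px := deg_pos h.1
  have py := deg_pos h.2.1
  have h1 := key m n (by omega)
  rw [hm, hn, mul_one] at h1
  have h2 : z m = 1 := by
    rcases smul_cases (z m) with h | h
    · rw [h, zero_mul] at h1; exact absurd h1 one_ne_zero
    · exact h
  have h3 : w n = 1 := by
    rcases smul_cases (w n) with h | h
    · rw [h, mul_zero] at h1; exact absurd h1 one_ne_zero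
    · exact h
  rcases le_total (deg y) (deg x) with hle | hle
  · left
    ext t
    have ht := t.len_pos
    have := key m t (by omega)
    rwa [hm, h2, one_mul, one_mul] at this
  · right
    ext t
    have ht := t.len_pos
    have := key t n (by omega)
    rwa [hn, h3, mul_one, mul_one] at this

theorem top_prod {p y : T →₀ ZMod 2} (hp : p ≠ 0) (hy : y ≠ 0) (a b c : ZMod 2)
    (q : T →₀ ZMod 2) (hq : deg q < deg p + deg y) :
    mulI p y ≠ a • y + b • q + c • p := by
  intro h
  obtain ⟨m, hm, hm2⟩ := exists_top hp
  obtain ⟨n, hn, hn2⟩ := exists_top hy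
  have px := deg_pos hp
  have py := deg_pos hy
  have h1 := DFunLike.congr_fun h (T.mul m n)
  have hl : (T.mul m n).len = m.len + n.len := rfl
  simp only [mulI_mul, Finsupp.add_apply, Finsupp.smul_apply, smul_eq_mul] at h1
  rw [hm, hn, zero_of_deg (x := y) (t := T.mul m n) (by rw [hl]; omega),
    zero_of_deg (x := q) (t := T.mul m n) (by rw [hl]; omega),
    zero_of_deg (x := p) (t := T.mul m n) (by rw [hl]; omega)] at h1
  simp at h1

theorem two_eq : (2 : ZMod 2) = 0 := rfl

theorem mulI_zero_left (y : T →₀ ZMod 2) : mulI 0 y = 0 := by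
  ext t
  cases t with
  | of s => simp [mulI_of]
  | mul a b => simp [mulI_mul]

theorem mulI_zero_right (y : T →₀ ZMod 2) : mulI y 0 = 0 := by
  ext t
  cases t with
  | of s => simp [mulI_of]
  | mul a b => simp [mulI_mul]

theorem eq_of_add {x z : T →₀ ZMod 2} (h : x + z = 0) : x = z := by
  have h1 := congrArg (fun t => t + z) h
  simpa only [add_assoc, char2, zero_add, add_zero] using h1

theorem add_add_self (x p : T →₀ ZMod 2) : x + (x + p) = p := by
  rw [← add_assoc, char2, zero_add]

/-- the case of equal right factors -/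
theorem caseL {ε : (T →₀ ZMod 2) → ZMod 2} {u x y z : T →₀ ZMod 2} {a b c d : ZMod 2}
    (h : Dec u a b x y) (h' : Dec u c d z y)
    (ihx : ∀ a b x' y', Dec x a b x' y' → ε x = a * ε y' + b * ε x')
    (ihz : ∀ a b x' y', Dec z a b x' y' → ε z = a * ε y' + b * ε x') :
    c * ε y + d * ε z = a * ε y + b * ε x := by
  have heq : a • y + b • x + mulI x y = c • y + d • z + mulI z y := by
    rw [← h.2.2, ← h'.2.2]
  have hm : mulI (x + z) y = (a + c) • y + (b + d) • x + d • (x + z) := by
    ext t
    have ht := DFunLike.congr_fun heq t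
    rw [mulI_add_left]
    simp only [Finsupp.add_apply, Finsupp.smul_apply, smul_eq_mul] at ht ⊢
    linear_combination ht + (mulI z y t - a * y t - b * x t - d * x t) * two_eq
  by_cases hp : x + z = 0
  · have hxz := eq_of_add hp
    subst hxz
    rw [hp, mulI_zero_left, smul_zero, add_zero] at hm
    rcases smul_cases (a + c) with h1 | h1
    · rcases smul_cases (b + d) with h2 | h2
      · have e1 : a = c := by
          linear_combination h1 - c * two_eq
        have e2 : b = d := by
          linear_combination h2 - d * two_eq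
        rw [e1, e2]
      · exfalso
        rw [h1, h2] at hm
        simp at hm
        exact h.1 hm.symm
    · rcases smul_cases (b + d) with h2 | h2
      · exfalso
        rw [h1, h2] at hm
        simp at hm
        exact h.2.1 hm.symm
      · rw [h1, h2, one_smul, one_smul] at hm
        have hxy := eq_of_add hm.symm
        subst hxy
        have e1 : c = a + 1 := by
          linear_combination h1 - a * two_eq
        have e2 : d = b + 1 := by
          linear_combination h2 - b * two_eq
        rw [e1, e2]
        linear_combination (ε y) * two_eq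
  · rcases smul_cases (b + d) with h2 | h2
    · exfalso
      apply top_prod hp h.2.1 (a + c) 0 d 0
      · have := deg_pos h.2.1
        have h0 : deg 0 = 0 := rfl
        omega
      · rw [hm, h2, zero_smul, zero_smul]
    · have hx : Dec x (a + c) d (x + z) y := by
        refine ⟨hp, h.2.1, ?_⟩
        ext t
        have ht := DFunLike.congr_fun hm t
        simp only [Finsupp.add_apply, Finsupp.smul_apply, smul_eq_mul] at ht ⊢
        rw [h2] at ht
        linear_combination ht - (mulI (x + z) y t - x t) * two_eq
      have hz : Dec z (a + c) (d + 1) (x + z) y := by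
        refine ⟨hp, h.2.1, ?_⟩
        ext t
        have ht := DFunLike.congr_fun hm t
        simp only [Finsupp.add_apply, Finsupp.smul_apply, smul_eq_mul] at ht ⊢
        rw [h2] at ht
        linear_combination ht - (mulI (x + z) y t) * two_eq
      rw [ihx _ _ _ _ hx, ihz _ _ _ _ hz]
      have e2 : b = d + 1 := by
        linear_combination h2 - d * two_eq
      rw [e2]
      linear_combination (-a * ε y) * two_eq

/-- the case of equal left factors -/
theorem caseR {ε : (T →₀ ZMod 2) → ZMod 2} {u x y w : T →₀ ZMod 2} {a b c d : ZMod 2}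
    (h : Dec u a b x y) (h' : Dec u c d x w)
    (ihx : ∀ a b x' y', Dec x a b x' y' → ε x = a * ε y' + b * ε x')
    (ihy : ∀ a b x' y', Dec y a b x' y' → ε y = a * ε y' + b * ε x')
    (ihw : ∀ a b x' y', Dec w a b x' y' → ε w = a * ε y' + b * ε x') :
    c * ε w + d * ε x = a * ε y + b * ε x := by
  by_cases hp : y + w = 0
  · have hyw := eq_of_add hp
    subst hyw
    exact caseL h h' ihx ihx
  have heq : a • y + b • x + mulI x y = c • w + d • x + mulI x w := by
    rw [← h.2.2, ← h'.2.2]
  have hm : mulI x (y + w) = c • (y + w) + (a + c) • y + (b + d) • x := by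
    ext t
    have ht := DFunLike.congr_fun heq t
    rw [mulI_add_right]
    simp only [Finsupp.add_apply, Finsupp.smul_apply, smul_eq_mul] at ht ⊢
    linear_combination ht + (mulI x w t - a * y t - b * x t - c * y t) * two_eq
  rcases smul_cases (a + c) with h2 | h2
  · exfalso
    apply top_prod h.1 hp c 0 (b + d) 0
    · have := deg_pos h.1
      have h0 : deg 0 = 0 := rfl
      omega
    · rw [hm, h2, zero_smul, zero_smul]
  · have hy : Dec y c (b + d) x (y + w) := by
      refine ⟨h.1, hp, ?_⟩
      ext t
      have ht := DFunLike.congr_fun hm t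
      simp only [Finsupp.add_apply, Finsupp.smul_apply, smul_eq_mul] at ht ⊢
      rw [h2] at ht
      linear_combination ht - (mulI x (y + w) t - y t) * two_eq
    have hw : Dec w (c + 1) (b + d) x (y + w) := by
      refine ⟨h.1, hp, ?_⟩
      ext t
      have ht := DFunLike.congr_fun hm t
      simp only [Finsupp.add_apply, Finsupp.smul_apply, smul_eq_mul] at ht ⊢
      rw [h2] at ht
      linear_combination ht - (mulI x (y + w) t) * two_eq
    rw [ihy _ _ _ _ hy, ihw _ _ _ _ hw]
    have e2 : a = c + 1 := by
      linear_combination h2 - c * two_eq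
    rw [e2]
    linear_combination (-b * ε x) * two_eq

theorem main_rec (N : ℕ) : ∀ z : T →₀ ZMod 2, deg z ≤ N → ∀ (a b : ZMod 2) (x y : T →₀ ZMod 2),
    Dec z a b x y → eps z = a * eps y + b * eps x := by
  induction N with
  | zero =>
    intro z hz a b x y h
    have := deg_lt_of_dec h
    omega
  | succ N ih =>
    intro u hu a b x y h
    obtain ⟨c, d, z, w, h', he⟩ := eps_rec u ⟨a, b, x, y, h⟩
    rw [he]
    have hx := (deg_lt_of_dec h)
    have hz := (deg_lt_of_dec h')
    rcases eq_or h h' with hyw | hxz
    · subst hyw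
      exact caseL h h' (fun a b x' y' => ih x (by omega) a b x' y')
        (fun a b x' y' => ih z (by omega) a b x' y')
    · subst hxz
      exact caseR h h' (fun a b x' y' => ih x (by omega) a b x' y')
        (fun a b x' y' => ih y (by omega) a b x' y') (fun a b x' y' => ih w (by omega) a b x' y')

theorem no_dec {z : T →₀ ZMod 2} (hz : deg z ≤ 1) :
    ¬ ∃ (a b : ZMod 2) (x y : T →₀ ZMod 2), Dec z a b x y := by
  rintro ⟨a, b, x, y, h⟩
  have h1 := h.deg_le
  have h2 := deg_pos h.1
  have h3 := deg_pos h.2.1
  omega

theorem eps_zero : eps 0 = 0 := by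
  rw [eps_base 0 (no_dec (by change (0 : ℕ) ≤ 1; omega)), if_neg]
  intro h
  have := DFunLike.congr_fun h (T.of true)
  simp at this

/-- the functional equation of the defect function -/
theorem eps_eq (a b : ZMod 2) (x y : T →₀ ZMod 2) :
    eps (a • y + b • x + mulI x y) = a * eps y + b * eps x := by
  by_cases hx : x = 0
  · subst hx
    rw [mulI_zero_left, smul_zero, add_zero, add_zero, eps_zero, mul_zero, add_zero]
    rcases smul_cases a with rfl | rfl
    · rw [zero_smul, zero_mul, eps_zero]
    · rw [one_smul, one_mul]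
  by_cases hy : y = 0
  · subst hy
    rw [mulI_zero_right, smul_zero, zero_add, add_zero, eps_zero, mul_zero, zero_add]
    rcases smul_cases b with rfl | rfl
    · rw [zero_smul, zero_mul, eps_zero]
    · rw [one_smul, one_mul]
  exact main_rec _ _ le_rfl a b x y ⟨hx, hy, rfl⟩

/-- the free unital non-associative algebra on two letters over `F_2` -/
def RR : Type := ZMod 2 × (T →₀ ZMod 2)

noncomputable instance : AddCommGroup RR := inferInstanceAs (AddCommGroup (ZMod 2 × (T →₀ ZMod 2)))

noncomputable instance : NonAssocRing RR where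
  mul r s := (r.1 * s.1, r.1 • s.2 + s.1 • r.2 + mulI r.2 s.2)
  one := (1, 0)
  left_distrib r s t := by
    refine Prod.ext ?_ ?_
    · change r.1 * (s.1 + t.1) = r.1 * s.1 + r.1 * t.1
      ring
    · change r.1 • (s.2 + t.2) + (s.1 + t.1) • r.2 + mulI r.2 (s.2 + t.2) =
        (r.1 • s.2 + s.1 • r.2 + mulI r.2 s.2) + (r.1 • t.2 + t.1 • r.2 + mulI r.2 t.2)
      rw [mulI_add_right, smul_add, add_smul]
      abel
  right_distrib r s t := by
    refine Prod.ext ?_ ?_
    · change (r.1 + s.1) * t.1 = r.1 * t.1 + s.1 * t.1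
      ring
    · change (r.1 + s.1) • t.2 + t.1 • (r.2 + s.2) + mulI (r.2 + s.2) t.2 =
        (r.1 • t.2 + t.1 • r.2 + mulI r.2 t.2) + (s.1 • t.2 + t.1 • s.2 + mulI s.2 t.2)
      rw [mulI_add_left, smul_add, add_smul]
      abel
  zero_mul r := by
    refine Prod.ext ?_ ?_
    · change 0 * r.1 = 0
      ring
    · change (0 : ZMod 2) • r.2 + r.1 • (0 : T →₀ ZMod 2) + mulI 0 r.2 = 0
      rw [mulI_zero_left]
      simp
  mul_zero r := by
    refine Prod.ext ?_ ?_
    · change r.1 * 0 = 0
      ring
    · change r.1 • (0 : T →₀ ZMod 2) + (0 : ZMod 2) • r.2 + mulI r.2 0 = 0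
      rw [mulI_zero_right]
      simp
  one_mul r := by
    refine Prod.ext ?_ ?_
    · change 1 * r.1 = r.1
      ring
    · change (1 : ZMod 2) • r.2 + r.1 • (0 : T →₀ ZMod 2) + mulI 0 r.2 = r.2
      rw [mulI_zero_left]
      simp
  mul_one r := by
    refine Prod.ext ?_ ?_
    · change r.1 * 1 = r.1
      ring
    · change r.1 • (0 : T →₀ ZMod 2) + (1 : ZMod 2) • r.2 + mulI r.2 0 = r.2
      rw [mulI_zero_right]
      simp

theorem RR_one : (1 : RR) = ((1 : ZMod 2), (0 : T →₀ ZMod 2)) := rfl
theorem RR_mul (r s : RR) : r * s = (r.1 * s.1, r.1 • s.2 + s.1 • r.2 + mulI r.2 s.2) := rfl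
theorem RR_add (r s : RR) : r + s = (r.1 + s.1, r.2 + s.2) := rfl

/-- the brachymorphism -/
noncomputable def br (r : RR) : DualNumber (ZMod 2) :=
  TrivSqZeroExt.inl r.1 + TrivSqZeroExt.inr (eps r.2)

theorem br_apply (r : RR) : br r = TrivSqZeroExt.inl r.1 + TrivSqZeroExt.inr (eps r.2) := rfl

/-- the generators -/
noncomputable def gen (b : Bool) : RR := ((0 : ZMod 2), Finsupp.single (T.of b) 1)

/-- **Result** (negative answer to Q1). There is a unital non-associative ring `R` (of
characteristic two) and a map `f` from `R` to the commutative associative ring of dual numbers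
over `F_2` (a ring with four elements) with `f (1 + x) = 1 + f x`, `f (x y) = f x f y`, which is
not additive. -/
theorem result : ∃ (R : Type) (_ : NonAssocRing R) (f : R → DualNumber (ZMod 2)),
    (∀ x : R, x + x = 0) ∧ (∀ x : R, f (1 + x) = 1 + f x) ∧ (∀ x y : R, f (x * y) = f x * f y) ∧
    ∃ x y : R, f (x + y) ≠ f x + f y := by
  refine ⟨RR, inferInstance, br, ?_, ?_, ?_, gen true, gen false, ?_⟩
  · intro x
    rw [RR_add]
    refine Prod.ext ?_ (char2 x.2)
    change x.1 + x.1 = 0
    linear_combination x.1 * two_eq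
  · intro x
    rw [br_apply, br_apply]
    change TrivSqZeroExt.inl (1 + x.1) + TrivSqZeroExt.inr (eps (0 + x.2)) = _
    rw [zero_add]
    ext
    · simp
    · simp
  · intro x y
    rw [br_apply, br_apply, br_apply]
    change TrivSqZeroExt.inl (x.1 * y.1) +
      TrivSqZeroExt.inr (eps (x.1 • y.2 + y.1 • x.2 + mulI x.2 y.2)) = _
    ext
    · simp
    · simp only [TrivSqZeroExt.snd_add, TrivSqZeroExt.snd_inl, TrivSqZeroExt.snd_inr,
        TrivSqZeroExt.snd_mul, TrivSqZeroExt.fst_add, TrivSqZeroExt.fst_inl,
        TrivSqZeroExt.fst_inr, eps_eq]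
      simp [mul_comm]
  · intro h
    have h1 := congrArg TrivSqZeroExt.snd h
    rw [br_apply, br_apply, br_apply] at h1
    simp only [TrivSqZeroExt.snd_add, TrivSqZeroExt.snd_inl, TrivSqZeroExt.snd_inr,
      zero_add] at h1
    change eps (Finsupp.single (T.of true) 1 + Finsupp.single (T.of false) 1) =
      eps (Finsupp.single (T.of true) 1) + eps (Finsupp.single (T.of false) 1) at h1
    have hs : ∀ b : Bool, deg (Finsupp.single (T.of b) (1 : ZMod 2)) ≤ 1 := by
      intro b
      rw [deg, Finsupp.support_single_ne_zero _ one_ne_zero, Finset.sup_singleton]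
      exact le_rfl
    have hd : deg (Finsupp.single (T.of true) (1 : ZMod 2) + Finsupp.single (T.of false) 1) ≤ 1 := by
      rw [deg, Finset.sup_le_iff]
      intro t ht
      have := Finsupp.support_add ht
      rw [Finset.mem_union, Finsupp.support_single_ne_zero _ one_ne_zero,
        Finsupp.support_single_ne_zero _ one_ne_zero, Finset.mem_singleton,
        Finset.mem_singleton] at this
      rcases this with rfl | rfl <;> exact le_rfl
    rw [eps_base _ (no_dec hd), if_pos rfl, eps_base _ (no_dec (hs true)),
      eps_base _ (no_dec (hs false)), if_neg, if_neg] at h1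
    · simp at h1
    · intro h2
      have := DFunLike.congr_fun h2 (T.of true)
      simp at this
    · intro h2
      have := DFunLike.congr_fun h2 (T.of false)
      simp at this

end Pool.Agent.Results.MP_041051_al.NotAdditive
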